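import Pool.Agent.T4h19.EV6
import Pool.Agent.W467.FG.F
import Pool.Agent.H106R3.VB.Jump

/-!
# The eigenvalues of the symmetries of an indecomposable bundle of rank two

Let `E` be a rank two bundle on `P^n` which does not split, and let `g` be a linear symmetry of `E`,
that is, an invertible matrix with `g^* E ≅ E`.  Let `l` be an eigenvalue of `g` with at least three
independent eigenvectors, let `μ ≠ l` be another eigenvalue, and let `Q` be an eigenvector of `μ` such
that the fibre of `E` at `[Q]` is generated by the sections of `E(d)`.  Then `μ / l` is a root of unity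
of an order at most `c₁ (E(d)) / 2`.

For instance: a reflection `diag (ζ, 1, …, 1)` with `g^* E ≅ E` has order at most `c₁ (E(d)) / 2`, if
`E(d)` is generated by its sections; for the pullbacks of the null-correlation bundle on `P^3` under
`x_i ↦ x_i ^ N` (with `d` such that `E(d)` is the pullback of `N(1)`, `c₁ = 2 N`) this is an equality.
Before, it was known for `n ≥ 4` that `g^k` is a scalar matrix (up to a torus of dimension at most one)
for some `k ≤ (6 c₁ (E(d)))^n` (`SymmetryGroup`), and that `(μ / l)^(p - q) = 1` if both eigenspaces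
have dimension at least three and `(p, q)` is the type of a line joining them (`LinearSymmetry`, empty
for `p = q`).

The proof.  Let `V` be the eigenspace of `l` and let `Λ` be the join of `P(V)` and `[Q]`, with the
coordinate `x_0` vanishing on `V`.  As `E|_V` does not split, the lift of `g` has on `E|_V` one
eigenvalue only (`GOp.typeV`, helper467).  So, if `s` is a generalised eigensection of `E(d)` whose
restriction to `Λ` is `x_0^k G`, `G` not divisible by `x_0`, its eigenvalue is `u μ^k l^(d-k)`.  At `Q`
there are two such sections with `P = G ∧ H ≠ 0` at `Q`, and `(μ / l)^D = 1` for `D = deg P =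
c₁ (E(d)) - k - j`; all exponents of `x_0` in `P` are multiples of the order `N` of `μ / l`.  If `D = 0`,
then `E|_Λ` splits.  Suppose `D = N`, so `P = a x_0^N + f`.  All products of such sections are polynomials
in `y = x_0^N` and the other coordinates.  So `G` and `H` have no common zero (it would be a double zero of
`P` as a polynomial in `y`), and on the graph `a y + f = 0`, which is a projective space of dimension at
least two, `G` and `H` are proportional, `b G = a' H` with coprime forms `a'`, `b`.  These have a common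
zero unless one of them is constant.  So `G` or `H` has no zero, and `E|_Λ` splits.  Hence `D ≥ 2 N`.
-/

set_option autoImplicit false

namespace Pool.Agent.Results.MP_b01859_ag.EigenvalueQuotients

open MvPolynomial H960VB

/-- the vectors of polynomials -/
abbrev Vec {n : ℕ} (E : Bundle2 n) : Type := Fin E.a → MvPolynomial (Fin (n + 1)) ℂ

/-- the polynomial `x ↦ p (g x)` -/
noncomputable def subst {n : ℕ} (g : Matrix (Fin (n + 1)) (Fin (n + 1)) ℂ)
    (p : MvPolynomial (Fin (n + 1)) ℂ) : MvPolynomial (Fin (n + 1)) ℂ :=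
  aeval (fun s => ∑ t, C (g s t) * X t) p

/-- `Φ` is a lift to `E` of the automorphism `x ↦ g x` of `P^n`, that is, an isomorphism
`g^* E ≅ E` in terms of sections: it maps sections of `E(d)` to sections of `E(d)`, is additive
and injective, and satisfies `Φ (p G) = (p ∘ g) Φ G` for all homogeneous polynomials `p`. -/
structure IsLift {n : ℕ} (E : Bundle2 n) (g : Matrix (Fin (n + 1)) (Fin (n + 1)) ℂ)
    (Φ : Vec E → Vec E) : Prop where
  sec : ∀ d G, E.IsSection d G → E.IsSection d (Φ G)
  add : ∀ d G G', E.IsSection d G → E.IsSection d G' → Φ (G + G') = Φ G + Φ G'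
  semi : ∀ d e p G, E.IsSection d G → HomZ p e → Φ (p • G) = subst g p • Φ G
  inj : ∀ d G, E.IsSection d G → Φ G = 0 → G = 0

/-- `g` is a linear symmetry of `E`: it is invertible and `g^* E ≅ E` -/
def IsSymmetry {n : ℕ} (E : Bundle2 n) (g : Matrix (Fin (n + 1)) (Fin (n + 1)) ℂ) : Prop :=
  IsUnit g ∧ ∃ Φ : Vec E → Vec E, IsLift E g Φ

/-- the eigenspace of `g` with eigenvalue `l` -/
def eigen {n : ℕ} (g : Matrix (Fin (n + 1)) (Fin (n + 1)) ℂ) (l : ℂ) :
    Submodule ℂ (Fin (n + 1) → ℂ) :=
  LinearMap.ker (g.mulVecLin - l • LinearMap.id)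

/-- the fibre of `E` at the point `[x]` is generated by the global sections of `E(d)` -/
def GeneratedAt {n : ℕ} (E : Bundle2 n) (d : ℤ) (x : Fin (n + 1) → ℂ) : Prop :=
  ∃ G G' : Vec E, E.IsSection d G ∧ E.IsSection d G' ∧ LinearIndependent ℂ ![evv G x, evv G' x]

/-- **The eigenvalues of the symmetries of an indecomposable bundle of rank two.** -/
theorem result {n : ℕ} (hn : 3 ≤ n) (E : Bundle2 n) (hE : ¬ E.Splits) :
    -- `c` is the first Chern class of `E`: all lines have a type `(a, b)`, and `a + b = c`
    ∃ c : ℤ, (∀ A B : Fin (n + 1) → ℂ, LinearIndependent ℂ ![A, B] →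
      (∃ a b : ℤ, E.SplitsOn A B a b) ∧ ∀ a b : ℤ, E.SplitsOn A B a b → a + b = c) ∧
    ∀ g : Matrix (Fin (n + 1)) (Fin (n + 1)) ℂ, IsSymmetry E g →
      -- an eigenvalue with three independent eigenvectors, and a second eigenvalue
      ∀ l μ : ℂ, l ≠ μ → 3 ≤ Module.finrank ℂ (eigen g l) →
        ∀ Q ∈ eigen g μ, Q ≠ 0 → ∀ d : ℤ, GeneratedAt E d Q →
          ∃ N : ℕ, 1 ≤ N ∧ 2 * (N : ℤ) ≤ c + 2 * d ∧ (μ / l) ^ N = 1 := by
  obtain ⟨W⟩ := H938TB.exists_wedge (by omega : 1 ≤ n) (Pool.Agent.W615.triv E)
  refine ⟨W.κ.1, fun A B hAB => ⟨Pool.Agent.H106R3.VB.splitsOn_exists E hAB,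
    fun a b hs => (Pool.Agent.W467.FX.kappa_of_line W hAB hs).symm⟩, ?_⟩
  rintro g ⟨hg, Φ, hΦ⟩ l μ hlμ hl Q hQ hQ0 d ⟨G, G', hG, hG', hli⟩
  have hsub : ∀ p : MvPolynomial (Fin (n + 1)) ℂ, subst g p = lsub g.mulVecLin p := by
    intro p
    unfold subst lsub
    congr 2
    funext s
    refine Finset.sum_congr rfl fun t _ => ?_
    congr 2
    rw [Matrix.mulVecLin_apply, Matrix.mulVec_single_one]
    rfl
  let O : Pool.Agent.W467.FO.GOp E g.mulVecLin :=
    { D := Φ
      sec := fun d G h => Pool.Agent.W615.sec_iff.2 (hΦ.sec d G (Pool.Agent.W615.sec_iff.1 h))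
      add := fun d G G' h h' =>
        hΦ.add d G G' (Pool.Agent.W615.sec_iff.1 h) (Pool.Agent.W615.sec_iff.1 h')
      mul := by
        intro d e p G h hp
        rw [← hsub]
        exact hΦ.semi d e p G (Pool.Agent.W615.sec_iff.1 h) hp
      inj := by
        intro d G h h0 i
        have h1 := hΦ.inj d G (Pool.Agent.W615.sec_iff.1 h) (funext h0)
        rw [h1]
        rfl }
  have hinj : Function.Injective g.mulVecLin := by
    intro x y h
    exact Matrix.mulVec_injective_iff_isUnit.2 hg h
  have e2 : g.mulVecLin Q = μ • Q := by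
    have h1 := LinearMap.mem_ker.1 hQ
    rw [LinearMap.sub_apply, LinearMap.smul_apply, LinearMap.id_apply, sub_eq_zero] at h1
    exact h1
  have s1 := Pool.Agent.W615.sec_iff.2 hG
  have s2 := Pool.Agent.W615.sec_iff.2 hG'
  obtain ⟨N, h1, h2, h3⟩ := Pool.Agent.T4h19.EV.final hE O hinj W hlμ hl hQ0 e2
    ⟨G, G', s1, s2, (W.ind Q hQ0 G G' s1.ker s2.ker).2 hli⟩
  exact ⟨N, h1, by omega, h3⟩

end Pool.Agent.Results.MP_b01859_ag.EigenvalueQuotients
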