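import Pool.Agent.T4h19.DG3
import Pool.Agent.T4h19.DG4
import Pool.Agent.T4h19.DG5

/-!
# Bundles of rank two with the symmetries `diag (ζ_0, …, ζ_n)`, `ζ_i ^ N = 1`

Let `n ≥ 3`, `N ≥ 1`, and let `E` be a rank two bundle on `P^n` which does not split, with an action
of `μ_N^(n+1)` over its action on `P^n` by diagonal matrices.  Then `E` is the twist of the
pullback of a rank two bundle `E'` on `P^n` (which does not split) under
`f (x_0 : … : x_n) = (x_0 ^ N : … : x_n ^ N)`.  (Conversely such a pullback has such an action.)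
So indecomposable bundles with these symmetries and with `N ≥ 2` are as rare as indecomposable
bundles, and they are far from uniform: through each coordinate point there is a line on which
the bundle is `O(p) ⊕ O(q)` with `|p - q| ≥ N (n - 1)`.

The proof.  (1) The subgroup `μ_N` of the coordinate `i` acts by a character `θ_i` on the fibres over
the hyperplane `x_i = 0`, since `E` restricted to it does not split (task SCAL); after the twist of the
action by `∏ θ_i` the stabilisers of all nonzero vectors act trivially on the fibres.  (2) So the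
invariant sections of the twists of `E` generate all the fibres, and the wedge product of two of them
is a polynomial in the `x_i ^ N`; (3) hence the degrees of any two invariant sections are congruent
modulo `N`, for otherwise the invariant sections would lie on two rank one subsheaves and `E` would
split.  (4) `E` is the kernel of the matrix of the relations of the wedge products of invariant
sections, whose entries are polynomials in the `x_i ^ N`, and by (3) the degrees of its rows and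
columns are `N β' + a`, `N γ' + a`.  (5) A bundle of rank two that does not split has through each
point a line with `|p - q| ≥ n - 1`; take the preimage of such a line for `E'`.

The helper files `Pool/Agent/T4h19/` for (1), (2), (4) were written with helpers 5 (SCAL), 35 (CHI, LIFT),
53 (FAM), 54 (GEN) and 64 (TRIV, GRAM); the basis is the work of helpers 106, 467, 615, 938, 960.
-/

set_option autoImplicit false

namespace Pool.Agent.Results.MP_b01859_ag.PowerPullbacks

open MvPolynomial H960VB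

/-- the group `μ_N^(n+1)` -/
abbrev Mu (n N : ℕ) : Type := Fin (n + 1) → rootsOfUnity N ℂ

/-- the vectors of polynomials -/
abbrev Vec {n : ℕ} (E : Bundle2 n) : Type := Fin E.a → MvPolynomial (Fin (n + 1)) ℂ

/-- the polynomial `p (ζ_0 x_0, …, ζ_n x_n)` -/
noncomputable def scale {n N : ℕ} (ζ : Mu n N) (p : MvPolynomial (Fin (n + 1)) ℂ) :
    MvPolynomial (Fin (n + 1)) ℂ :=
  aeval (fun i => C ((ζ i : ℂˣ) : ℂ) * X i) p

/-- An action of `μ_N^(n+1)` on the bundle `E` over its action on `P^n` by diagonal matrices: for every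
`ζ` a lift `Φ ζ` of `x ↦ (ζ_i x_i)_i` (it maps sections of `E(d)` to sections of `E(d)`, is additive
and injective, and `Φ ζ (p G) = p (ζ x) Φ ζ G` for all homogeneous polynomials `p`), compatible
with products. -/
structure DiagonalAction {n : ℕ} (E : Bundle2 n) (N : ℕ) where
  Φ : Mu n N → Vec E → Vec E
  sec : ∀ ζ d G, E.IsSection d G → E.IsSection d (Φ ζ G)
  add : ∀ ζ d G G', E.IsSection d G → E.IsSection d G' → Φ ζ (G + G') = Φ ζ G + Φ ζ G'
  semi : ∀ ζ d e p G, E.IsSection d G → HomZ p e → Φ ζ (p • G) = scale ζ p • Φ ζ G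
  inj : ∀ ζ d G, E.IsSection d G → Φ ζ G = 0 → G = 0
  one : ∀ d G, E.IsSection d G → Φ 1 G = G
  mul : ∀ ζ η d G, E.IsSection d G → Φ (ζ * η) G = Φ η (Φ ζ G)

/-- `E` and `E'` are isomorphic: there is an isomorphism of the graded modules of the sections of
all twists. -/
def Isomorphic {n : ℕ} (E E' : Bundle2 n) : Prop :=
  ∃ Ψ : Vec E → Vec E', (∀ d G, E.IsSection d G → E'.IsSection d (Ψ G)) ∧
    (∀ d G G', E.IsSection d G → E.IsSection d G' → Ψ (G + G') = Ψ G + Ψ G') ∧
    (∀ d (p : MvPolynomial (Fin (n + 1)) ℂ) G, E.IsSection d G → Ψ (p • G) = p • Ψ G) ∧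
    ∀ d H, E'.IsSection d H → ∃! G, E.IsSection d G ∧ Ψ G = H

/-- the twist by `a` of the pullback of the bundle `E` under `x_i ↦ x_i ^ N`: the kernel of the matrix
`E.B (x_0 ^ N, …, x_n ^ N)` from `⊕ O(N β_i + a)` to `⊕ O(N γ_k + a)` -/
noncomputable def powPull {n : ℕ} (N : ℕ) (hN : 1 ≤ N) (a : ℤ) (E : Bundle2 n) : Bundle2 n where
  a := E.a
  c := E.c
  β := fun i => N * E.β i + a
  γ := fun k => N * E.γ k + a
  B := E.B.map (expand N)
  hom := (Pool.Agent.T4h19.DG.powPull N hN a E).hom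
  rank_two := (Pool.Agent.T4h19.DG.powPull N hN a E).rank_two

variable {n N : ℕ} {E : Bundle2 n}

/-- the matrix of `ζ` -/
noncomputable def mat (ζ : Mu n N) : (Fin (n + 1) → ℂ) →ₗ[ℂ] (Fin (n + 1) → ℂ) where
  toFun x := fun j => ((ζ j : ℂˣ) : ℂ) * x j
  map_add' x y := by
    funext j
    show ((ζ j : ℂˣ) : ℂ) * (x j + y j) = ((ζ j : ℂˣ) : ℂ) * x j + ((ζ j : ℂˣ) : ℂ) * y j
    ring
  map_smul' a x := by
    funext j
    show ((ζ j : ℂˣ) : ℂ) * (a * x j) = a * (((ζ j : ℂˣ) : ℂ) * x j)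
    ring

theorem scale_eq (ζ : Mu n N) (p : MvPolynomial (Fin (n + 1)) ℂ) :
    scale ζ p = lsub (mat ζ) p := by
  apply MvPolynomial.funext
  intro x
  rw [eval_lsub]
  have h : (eval x).comp (aeval (fun i => C ((ζ i : ℂˣ) : ℂ) * X i) :
      MvPolynomial (Fin (n + 1)) ℂ →ₐ[ℂ] MvPolynomial (Fin (n + 1)) ℂ).toRingHom =
      eval (mat ζ x) := by
    apply MvPolynomial.ringHom_ext
    · intro r
      simp
    · intro i
      show eval x (aeval (fun i => C ((ζ i : ℂˣ) : ℂ) * X i) (X i)) = eval (mat ζ x) (X i)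
      rw [aeval_X, map_mul, eval_C, eval_X, eval_X]
      rfl
  exact congrFun (congrArg DFunLike.coe h) p

theorem homC (a : ℂ) : HomZ (C a : MvPolynomial (Fin (n + 1)) ℂ) 0 :=
  Or.inr ⟨0, rfl, isHomogeneous_C _ _⟩

/-- the twisted lift as an operator -/
noncomputable def gop (A : DiagonalAction E N) (θ : Mu n N →* ℂˣ) (g : Mu n N) :
    Pool.Agent.W467.FO.GOp E (mat g) where
  D := fun G i => C (((θ g)⁻¹ : ℂˣ) : ℂ) * A.Φ g G i
  sec := by
    intro d G hG
    have h1 := Pool.Agent.W615.sec_iff.2 (A.sec g d G (Pool.Agent.W615.sec_iff.1 hG))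
    have h2 := Pool.Agent.W615.sec_mul (homC (((θ g)⁻¹ : ℂˣ) : ℂ)) h1
    rw [zero_add] at h2
    exact h2
  add := by
    intro d G G' hG hG'
    have h1 := A.add g d G G' (Pool.Agent.W615.sec_iff.1 hG) (Pool.Agent.W615.sec_iff.1 hG')
    funext i
    have h2 : A.Φ g (fun i => G i + G' i) i = A.Φ g G i + A.Φ g G' i := congrFun h1 i
    rw [h2, mul_add]
  mul := by
    intro d e p G hG hp
    have h1 := A.semi g d e p G (Pool.Agent.W615.sec_iff.1 hG) hp
    funext i
    have h2 : A.Φ g (fun i => p * G i) i = scale g p * A.Φ g G i := congrFun h1 i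
    rw [h2, scale_eq]
    ring
  inj := by
    intro d G hG h0 i
    have h1 : A.Φ g G = 0 := by
      funext j
      refine (mul_eq_zero.1 (h0 j)).resolve_left ?_
      rw [C_eq_zero]
      exact Units.ne_zero _
    rw [A.inj g d G (Pool.Agent.W615.sec_iff.1 hG) h1]
    rfl

/-- the action in the language of the helper files -/
noncomputable def act (A : DiagonalAction E N) (θ : Mu n N →* ℂˣ) :
    Pool.Agent.T4h19.Act E (Mu n N) where
  ρ := mat
  ρ_one := by
    apply LinearMap.ext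
    intro x
    funext j
    show (((1 : Mu n N) j : ℂˣ) : ℂ) * x j = x j
    simp
  ρ_mul := fun g h => by
    apply LinearMap.ext
    intro x
    funext j
    show (((g * h) j : ℂˣ) : ℂ) * x j = ((g j : ℂˣ) : ℂ) * (((h j : ℂˣ) : ℂ) * x j)
    rw [Pi.mul_apply, Subgroup.coe_mul, Units.val_mul]
    ring
  O := gop A θ
  one := by
    intro d s hs
    funext i
    show C (((θ 1)⁻¹ : ℂˣ) : ℂ) * A.Φ 1 s i = s i
    rw [map_one, inv_one, Units.val_one, C_1, one_mul,
      A.one d s (Pool.Agent.W615.sec_iff.1 hs)]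
  mul := by
    intro g h d s hs
    have hs' := Pool.Agent.W615.sec_iff.1 hs
    funext i
    have h1 := A.semi h d 0 (C (((θ g)⁻¹ : ℂˣ) : ℂ)) (A.Φ g s) (A.sec g d s hs') (homC _)
    have h2 : A.Φ h (fun i => C (((θ g)⁻¹ : ℂˣ) : ℂ) * A.Φ g s i) i =
        scale h (C (((θ g)⁻¹ : ℂˣ) : ℂ)) * A.Φ h (A.Φ g s) i := congrFun h1 i
    have h3 : scale h (C (((θ g)⁻¹ : ℂˣ) : ℂ)) =
        (C (((θ g)⁻¹ : ℂˣ) : ℂ) : MvPolynomial (Fin (n + 1)) ℂ) := by
      unfold scale
      rw [aeval_C]
      rfl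
    show C (((θ (g * h))⁻¹ : ℂˣ) : ℂ) * A.Φ (g * h) s i = C (((θ h)⁻¹ : ℂˣ) : ℂ) *
      A.Φ h (fun i => C (((θ g)⁻¹ : ℂˣ) : ℂ) * A.Φ g s i) i
    rw [h2, h3, A.mul g h d s hs', map_mul, mul_inv, Units.val_mul, C_mul]
    ring

/-- **Bundles with the symmetries `diag (ζ_0, …, ζ_n)` are pullbacks under `x_i ↦ x_i ^ N`.** -/
theorem result {n : ℕ} (hn : 3 ≤ n) (E : Bundle2 n) (hE : ¬ E.Splits) {N : ℕ} (hN : 1 ≤ N)
    (A : DiagonalAction E N) :
    ∃ (E' : Bundle2 n) (a : ℤ), ¬ E'.Splits ∧ Isomorphic E (powPull N hN a E') ∧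
      ∀ i, ∃ Q : Fin (n + 1) → ℂ,
        LinearIndependent ℂ ![(Pi.single i 1 : Fin (n + 1) → ℂ), Q] ∧
        ∃ p q : ℤ, (powPull N hN a E').SplitsOn (Pi.single i 1) Q p q ∧
          (N : ℤ) * (n - 1) ≤ |p - q| := by
  haveI : NeZero N := ⟨by omega⟩
  -- the normalising character
  obtain ⟨θ, hθ⟩ := Pool.Agent.T4h19.DG.exists_char (act A 1) (fun _ _ _ => rfl) hn hE
  have hone : ∀ (g : Mu n N) (s : Vec E), ((act A 1).O g).D s = A.Φ g s := by
    intro g s
    funext i
    show C ((((1 : Mu n N →* ℂˣ) g)⁻¹ : ℂˣ) : ℂ) * A.Φ g s i = A.Φ g s i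
    rw [MonoidHom.one_apply, inv_one, Units.val_one, C_1, one_mul]
  obtain ⟨E', a, Ψ, h0, h1, h2, h3, h4⟩ := Pool.Agent.T4h19.DG.pow_main hn hE hN (act A θ)
    (fun _ _ _ => rfl) (by
      intro r hr
      obtain ⟨y, hy, hy', h⟩ := hθ r hr
      refine ⟨y, hy, hy', fun d s hs => ?_⟩
      have h6 := h d s hs
      rw [hone] at h6
      funext i
      have h7 : eval y (A.Φ r s i) = (θ r : ℂ) * eval y (s i) := congrFun h6 i
      show eval y (C (((θ r)⁻¹ : ℂˣ) : ℂ) * A.Φ r s i) = eval y (s i)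
      rw [map_mul, eval_C, h7, ← mul_assoc, Units.inv_mul, one_mul])
  refine ⟨E', a, h0, ⟨Ψ, ?_, ?_, ?_, ?_⟩, fun i => ?_⟩
  · exact fun d G hG => Pool.Agent.W615.sec_iff.1 (h1 d G (Pool.Agent.W615.sec_iff.2 hG))
  · exact fun d G G' hG hG' =>
      h2 d G G' (Pool.Agent.W615.sec_iff.2 hG) (Pool.Agent.W615.sec_iff.2 hG')
  · exact fun d p G hG => h3 d p G (Pool.Agent.W615.sec_iff.2 hG)
  · intro d H hH
    obtain ⟨G, ⟨hG, hG'⟩, hu⟩ := h4 d H (Pool.Agent.W615.sec_iff.2 hH)
    exact ⟨G, ⟨Pool.Agent.W615.sec_iff.1 hG, hG'⟩,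
      fun K hK => hu K ⟨Pool.Agent.W615.sec_iff.2 hK.1, hK.2⟩⟩
  · exact Pool.Agent.T4h19.DG.exists_line (by omega) hN a h0 i

end Pool.Agent.Results.MP_b01859_ag.PowerPullbacks
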