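import Pool.Agent.T4h19.RG1

/-!
# Bundles of rank two with a finite reflection group

Let `n ≥ 3`, let `Γ` be a finite group acting linearly on `ℂ^(n+1)`, generated by (complex)
reflections and such that the stabiliser of every nonzero vector is generated by reflections (by
Steinberg's theorem the second property follows from the first one; it is elementary for the
permutations of the coordinates, for the diagonal matrices whose entries are `N`-th roots of unity,
and for the groups generated by both).  Let `E` be a rank two bundle on `P^n` which does not split,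
with an action of `Γ`, normalised by a character `θ` of `Γ` such that each reflection `r` acts by `θ r` on
the fibre over one of its fixed vectors.  Then `E` is the kernel of a matrix whose entries are
`Γ`-INVARIANT homogeneous polynomials: `E` is the pullback of a bundle on the weighted projective
space `P^n / Γ = P(d_0, …, d_n)`, `d_i` the degrees of the basic invariants.

Examples.  (1) Permutations: the entries are symmetric polynomials, `E` comes from `P(1, 2, …, n + 1)`.
(2) If `E` has all the symmetries `diag (ζ_0, …, ζ_n)`, `ζ_i ^ N = 1`, then the entries are polynomials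
in `x_0 ^ N, …, x_n ^ N`; so a twist of `E` is the pullback of a rank two bundle on `P^n` under
`x_i ↦ x_i ^ N`, and `N ^ 2` divides `c₁ (E)^2 - 4 c₂ (E)`.

The proof.  (SCAL) Let `r` be a reflection with the hyperplane `H`.  Its lift acts on `E|_H` with one
eigenvalue only, since otherwise `E|_H` and so `E` would split; hence it acts by a scalar on the fibres
over `H`.  (TRIV) So, after a twist by `θ`, the stabilisers of all nonzero vectors act trivially on the
fibres.  (GEN) Then the invariant sections of the twists of `E` generate all fibres, by averaging `p s`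
where the polynomial `p` is one at `x` and zero at the other points of the orbit of `x`.  (FAM) Finitely
many invariant homogeneous sections `s_i` generate.  (CHI) The wedge products `s_i ∧ s_j` are invariant.
(GRAM, LIFT) `E` is isomorphic to the kernel of the matrix of the relations
`(s_j ∧ s_k) p_i - (s_i ∧ s_k) p_j + (s_i ∧ s_j) p_k = 0`, by `s ↦ (s ∧ s_i)_i`.

Written with helpers 5 (SCAL), 35 (CHI, LIFT), 53 (FAM), 54 (GEN) and 64 (TRIV, GRAM); the basis is the
work of helpers 467, 615, 938 and 960 on bundles with symmetries.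
-/

set_option autoImplicit false

namespace Pool.Agent.Results.MP_b01859_ag.ReflectionGroups

open MvPolynomial H960VB

/-- the vectors of polynomials -/
abbrev Vec {n : ℕ} (E : Bundle2 n) : Type := Fin E.a → MvPolynomial (Fin (n + 1)) ℂ

/-- the polynomial `x ↦ p (g x)` -/
noncomputable def subst {n : ℕ} (g : Matrix (Fin (n + 1)) (Fin (n + 1)) ℂ)
    (p : MvPolynomial (Fin (n + 1)) ℂ) : MvPolynomial (Fin (n + 1)) ℂ :=
  aeval (fun s => ∑ t, C (g s t) * X t) p

/-- `Φ` is a lift to `E` of the automorphism `x ↦ g x` of `P^n`, that is, an isomorphism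
`g^* E ≅ E` in terms of sections: it maps sections of `E(d)` to sections of `E(d)`, is additive
and injective, and satisfies `Φ (p G) = (p ∘ g) Φ G` for all homogeneous polynomials `p`. -/
structure IsLift {n : ℕ} (E : Bundle2 n) (g : Matrix (Fin (n + 1)) (Fin (n + 1)) ℂ)
    (Φ : Vec E → Vec E) : Prop where
  sec : ∀ d G, E.IsSection d G → E.IsSection d (Φ G)
  add : ∀ d G G', E.IsSection d G → E.IsSection d G' → Φ (G + G') = Φ G + Φ G'
  semi : ∀ d e p G, E.IsSection d G → HomZ p e → Φ (p • G) = subst g p • Φ G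
  inj : ∀ d G, E.IsSection d G → Φ G = 0 → G = 0

/-- an action of the group `Γ` on `P^n`, through matrices `ρ g`, and on the bundle `E`, through lifts
`Φ g` which are compatible with products -/
structure Action {n : ℕ} (E : Bundle2 n) (Γ : Type) [Group Γ] where
  ρ : Γ →* Matrix (Fin (n + 1)) (Fin (n + 1)) ℂ
  Φ : Γ → Vec E → Vec E
  lift : ∀ g, IsLift E (ρ g) (Φ g)
  one : ∀ d G, E.IsSection d G → Φ 1 G = G
  mul : ∀ g h d G, E.IsSection d G → Φ (g * h) G = Φ h (Φ g G)

variable {n : ℕ} {E : Bundle2 n} {Γ : Type} [Group Γ]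

/-- `g` acts on `ℂ^(n+1)` as a reflection or trivially: it fixes a hyperplane pointwise. -/
def Action.IsReflection (A : Action E Γ) (g : Γ) : Prop :=
  n ≤ Module.finrank ℂ (LinearMap.ker ((A.ρ g).mulVecLin - LinearMap.id))

/-- the stabilisers of the nonzero vectors are generated by reflections -/
def Action.Steinberg (A : Action E Γ) : Prop :=
  ∀ x : Fin (n + 1) → ℂ, x ≠ 0 → ∀ g, (A.ρ g).mulVec x = x →
    g ∈ Subgroup.closure {r | A.IsReflection r ∧ (A.ρ r).mulVec x = x}

/-- `E` and `E'` are isomorphic: there is an isomorphism of the graded modules of the sections of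
all twists. -/
def Isomorphic (E E' : Bundle2 n) : Prop :=
  ∃ Ψ : Vec E → Vec E', (∀ d G, E.IsSection d G → E'.IsSection d (Ψ G)) ∧
    (∀ d G G', E.IsSection d G → E.IsSection d G' → Ψ (G + G') = Ψ G + Ψ G') ∧
    (∀ d (p : MvPolynomial (Fin (n + 1)) ℂ) G, E.IsSection d G → Ψ (p • G) = p • Ψ G) ∧
    ∀ d H, E'.IsSection d H → ∃! G, E.IsSection d G ∧ Ψ G = H

theorem subst_eq (g : Matrix (Fin (n + 1)) (Fin (n + 1)) ℂ)
    (p : MvPolynomial (Fin (n + 1)) ℂ) : subst g p = lsub g.mulVecLin p := by
  unfold subst lsub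
  congr 2
  funext s
  refine Finset.sum_congr rfl fun t _ => ?_
  congr 2
  rw [Matrix.mulVecLin_apply, Matrix.mulVec_single_one]
  rfl

theorem homC (a : ℂ) : HomZ (C a : MvPolynomial (Fin (n + 1)) ℂ) 0 :=
  Or.inr ⟨0, rfl, isHomogeneous_C _ _⟩

/-- the twisted lift as an operator -/
noncomputable def gop (A : Action E Γ) (θ : Γ →* ℂˣ) (g : Γ) :
    Pool.Agent.W467.FO.GOp E (A.ρ g).mulVecLin where
  D := fun G i => C (((θ g)⁻¹ : ℂˣ) : ℂ) * A.Φ g G i
  sec := by
    intro d G hG
    have h1 := Pool.Agent.W615.sec_iff.2 ((A.lift g).sec d G (Pool.Agent.W615.sec_iff.1 hG))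
    have h2 := Pool.Agent.W615.sec_mul (homC (((θ g)⁻¹ : ℂˣ) : ℂ)) h1
    rw [zero_add] at h2
    exact h2
  add := by
    intro d G G' hG hG'
    have h1 := (A.lift g).add d G G' (Pool.Agent.W615.sec_iff.1 hG)
      (Pool.Agent.W615.sec_iff.1 hG')
    funext i
    have h2 : A.Φ g (fun i => G i + G' i) i = A.Φ g G i + A.Φ g G' i := congrFun h1 i
    rw [h2, mul_add]
  mul := by
    intro d e p G hG hp
    have h1 := (A.lift g).semi d e p G (Pool.Agent.W615.sec_iff.1 hG) hp
    funext i
    have h2 : A.Φ g (fun i => p * G i) i = subst (A.ρ g) p * A.Φ g G i := congrFun h1 i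
    rw [h2, subst_eq]
    ring
  inj := by
    intro d G hG h0 i
    have h1 : A.Φ g G = 0 := by
      funext j
      refine (mul_eq_zero.1 (h0 j)).resolve_left ?_
      rw [C_eq_zero]
      exact Units.ne_zero _
    rw [(A.lift g).inj d G (Pool.Agent.W615.sec_iff.1 hG) h1]
    rfl

/-- the action in the language of the helper files -/
noncomputable def act (A : Action E Γ) (θ : Γ →* ℂˣ) : Pool.Agent.T4h19.Act E Γ where
  ρ := fun g => (A.ρ g).mulVecLin
  ρ_one := by rw [map_one, Matrix.mulVecLin_one]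
  ρ_mul := fun g h => by rw [map_mul, Matrix.mulVecLin_mul]
  O := gop A θ
  one := by
    intro d s hs
    funext i
    show C (((θ 1)⁻¹ : ℂˣ) : ℂ) * A.Φ 1 s i = s i
    rw [map_one, inv_one, Units.val_one, C_1, one_mul,
      A.one d s (Pool.Agent.W615.sec_iff.1 hs)]
  mul := by
    intro g h d s hs
    have hs' := Pool.Agent.W615.sec_iff.1 hs
    funext i
    have h1 := (A.lift h).semi d 0 (C (((θ g)⁻¹ : ℂˣ) : ℂ)) (A.Φ g s) ((A.lift g).sec d s hs')
      (homC _)
    have h2 : A.Φ h (fun i => C (((θ g)⁻¹ : ℂˣ) : ℂ) * A.Φ g s i) i =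
        subst (A.ρ h) (C (((θ g)⁻¹ : ℂˣ) : ℂ)) * A.Φ h (A.Φ g s) i := congrFun h1 i
    have h3 : subst (A.ρ h) (C (((θ g)⁻¹ : ℂˣ) : ℂ)) =
        (C (((θ g)⁻¹ : ℂˣ) : ℂ) : MvPolynomial (Fin (n + 1)) ℂ) := by
      unfold subst
      rw [aeval_C]
      rfl
    show C (((θ (g * h))⁻¹ : ℂˣ) : ℂ) * A.Φ (g * h) s i = C (((θ h)⁻¹ : ℂˣ) : ℂ) *
      A.Φ h (fun i => C (((θ g)⁻¹ : ℂˣ) : ℂ) * A.Φ g s i) i
    rw [h2, h3, A.mul g h d s hs', map_mul, mul_inv, Units.val_mul, C_mul]
    ring

/-- **Bundles of rank two with a finite reflection group.** -/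
theorem result {n : ℕ} (hn : 3 ≤ n) (E : Bundle2 n) (hE : ¬ E.Splits)
    (Γ : Type) [Group Γ] [Finite Γ] (A : Action E Γ)
    -- `Γ` is generated by reflections, and so are the stabilisers
    (hgen : Subgroup.closure {r | A.IsReflection r} = ⊤) (hSt : A.Steinberg)
    -- the normalisation of the action by a character
    (θ : Γ →* ℂˣ) (hθ : ∀ r, A.IsReflection r → ∃ y : Fin (n + 1) → ℂ, y ≠ 0 ∧
      (A.ρ r).mulVec y = y ∧ ∀ d G, E.IsSection d G → evv (A.Φ r G) y = (θ r : ℂ) • evv G y) :
    ∃ E' : Bundle2 n, Isomorphic E E' ∧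
      ∀ g k i, subst (A.ρ g) (E'.B k i) = E'.B k i := by
  obtain ⟨E', Ψ, h1, h2, h3, h4, h5⟩ := Pool.Agent.T4h19.main hn hE (act A θ) hSt (by
    intro r hr
    obtain ⟨y, hy, hy', h⟩ := hθ r hr
    refine ⟨y, hy, hy', fun d s hs => ?_⟩
    have h6 := h d s (Pool.Agent.W615.sec_iff.1 hs)
    funext i
    have h7 : eval y (A.Φ r s i) = (θ r : ℂ) * eval y (s i) := congrFun h6 i
    show eval y (C (((θ r)⁻¹ : ℂˣ) : ℂ) * A.Φ r s i) = eval y (s i)
    rw [map_mul, eval_C, h7, ← mul_assoc, Units.inv_mul, one_mul])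
  refine ⟨E', ⟨Ψ, ?_, ?_, ?_, ?_⟩, ?_⟩
  · exact fun d G hG => Pool.Agent.W615.sec_iff.1 (h1 d G (Pool.Agent.W615.sec_iff.2 hG))
  · exact fun d G G' hG hG' =>
      h2 d G G' (Pool.Agent.W615.sec_iff.2 hG) (Pool.Agent.W615.sec_iff.2 hG')
  · exact fun d p G hG => h3 d p G (Pool.Agent.W615.sec_iff.2 hG)
  · intro d H hH
    obtain ⟨G, ⟨hG, hG'⟩, hu⟩ := h4 d H (Pool.Agent.W615.sec_iff.2 hH)
    exact ⟨G, ⟨Pool.Agent.W615.sec_iff.1 hG, hG'⟩,
      fun K hK => hu K ⟨Pool.Agent.W615.sec_iff.2 hK.1, hK.2⟩⟩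
  · intro g
    have hg : g ∈ Subgroup.closure {r | A.IsReflection r} := by rw [hgen]; trivial
    have hid : ∀ p : MvPolynomial (Fin (n + 1)) ℂ, lsub (LinearMap.id) p = p := by
      intro p
      apply MvPolynomial.funext
      intro x
      rw [eval_lsub]
      rfl
    have key : ∀ k i, lsub (A.ρ g).mulVecLin (E'.B k i) = E'.B k i := by
      induction hg using Subgroup.closure_induction with
      | mem r hr => exact h5 r hr
      | one =>
        intro k i
        rw [map_one, Matrix.mulVecLin_one, hid]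
      | mul a b _ _ ha hb =>
        intro k i
        rw [map_mul, Matrix.mulVecLin_mul, ← Pool.Agent.W615.lsub_comp, ha, hb]
      | inv a _ ha =>
        intro k i
        have h6 : lsub (A.ρ a⁻¹).mulVecLin (lsub (A.ρ a).mulVecLin (E'.B k i)) = E'.B k i := by
          rw [Pool.Agent.W615.lsub_comp, ← Matrix.mulVecLin_mul, ← map_mul, mul_inv_cancel,
            map_one, Matrix.mulVecLin_one, hid]
        rw [ha] at h6
        exact h6
    intro k i
    rw [subst_eq]
    exact key k i

end Pool.Agent.Results.MP_b01859_ag.ReflectionGroups
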