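import Pool.Agent.T4h91.EH.Count
import Pool.Agent.T4h91.EH.Exist

set_option autoImplicit false

/-!
# The threshold for the Riemann-Roch conditions in rank two

Let `E` be a complex vector bundle of rank two on `ℙ^n` with the Chern classes `c₁`, `c₂`. The theorem
of Riemann-Roch gives the Riemann-Roch conditions for the polynomial `T² - c₁ T + c₂`. They hold for the
classes `a + b`, `a b` of direct sums of line bundles. We call the other pairs of integers with these
conditions, and their discriminants `D = c₁² - 4 c₂` (which are not squares), exceptional. For every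
`ε > 0` and all `n ≥ n₀(ε)`:

* For `X ≤ exp (n ^ (1/2 - ε))` there are at most `√X / n ^ (2 √e - ε)` exceptional discriminants with
  `|D| ≤ X`.
* For `1 ≤ H ≤ exp (n ^ (1/2 - ε))` there are at most `H² / n ^ (2 √e - ε)` exceptional pairs with
  `|c₁| ≤ H`, `|c₂| ≤ H²`.
* For all `H ≥ 2 ^ ((1 + ε) π(n))` there are at least `H ^ (2 + ε / (2 + 2 ε))` exceptional pairs with
  `|c₁| ≤ H`, `|c₂| ≤ H²`.
* For `t ≥ 1` and `H ≥ 6 t n!` there are at least `t H²` exceptional pairs with `|c₁| ≤ H`, `|c₂| ≤ H²`.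

There are about `H²` split pairs `(a + b, a b)` in the box. So the split pairs are almost all pairs with
the Riemann-Roch conditions up to `H = exp (n ^ (1/2 - ε))`, and the exceptional pairs are almost all of
them beyond `H = 2 ^ ((1 + ε) π(n)) = exp ((log 2 + ε + o(1)) n / log n)`.

The proof. `D = f s²` with `f` squarefree is a square modulo all odd primes `p < n`, so `s` is divisible
by all odd primes `p < n` for which `f` is a non-residue, and there are at most `2 log X` of them. For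
`|f| ≤ n ^ (4 √e - ε)` the method of Burgess and Vinogradov (`BurgessDiscriminant`) shows that their
product is larger than every power of `n`. For the sizes `e ^ i ≤ |f| < e ^ (i + 1)` with larger `i` the
number of the `f` is estimated with Heath-Brown's large sieve for real characters, for the sums
`∑ (f / m)` over the products `m` of `B` distinct primes below `n`, with `n ^ B` about `e ^ i`. These sums
are large, since `B` is small compared with `π(n) / log X`, in which the condition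
`X ≤ exp (n ^ (1/2 - ε))` is used. For the third statement, the primes `ℓ` in `(n, H]` are sorted according
to their classes modulo `8` and their residue symbols modulo the odd primes `p ≤ n`; two primes of the
same type give a discriminant `ℓ₁ ℓ₂` which is a square modulo `4 · n !`, and this is sufficient for the
Riemann-Roch conditions. So is the divisibility of `c₂` by `n !`, which gives the last statement.
-/

namespace Pool.Agent.Results.MP_b01859_ag.RiemannRochThreshold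

open Pool.Agent.R920.CH

/-- **The Riemann-Roch conditions in rank two: up to `exp (n ^ (1/2 - ε))` and beyond
`2 ^ ((1 + ε) π(n))`.** -/
theorem result (ε : ℝ) (hε : 0 < ε) : ∃ n₀ : ℕ, ∀ n ≥ n₀,
    (∀ X : ℝ, X ≤ Real.exp ((n : ℝ) ^ (1 / 2 - ε : ℝ)) → ∀ S : Finset ℤ,
      (∀ D ∈ S, |(D : ℝ)| ≤ X ∧ ¬ IsSquare D ∧
        ∃ c₁ c₂ : ℤ, RiemannRoch n (poly2 c₁ c₂) ∧ c₁ ^ 2 - 4 * c₂ = D) →
      (S.card : ℝ) ≤ √X / (n : ℝ) ^ (2 * Real.exp (1 / 2) - ε)) ∧
    (∀ H : ℝ, 1 ≤ H → H ≤ Real.exp ((n : ℝ) ^ (1 / 2 - ε : ℝ)) → ∀ S : Finset (ℤ × ℤ),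
      (∀ c ∈ S, |(c.1 : ℝ)| ≤ H ∧ |(c.2 : ℝ)| ≤ H ^ 2 ∧ RiemannRoch n (poly2 c.1 c.2) ∧
        ¬ ∃ a b : ℤ, c.1 = a + b ∧ c.2 = a * b) →
      (S.card : ℝ) ≤ H ^ 2 / (n : ℝ) ^ (2 * Real.exp (1 / 2) - ε)) ∧
    (∀ H : ℝ, (2 : ℝ) ^ ((1 + ε) * (Nat.primeCounting n : ℝ)) ≤ H → ∃ S : Finset (ℤ × ℤ),
      (∀ c ∈ S, |(c.1 : ℝ)| ≤ H ∧ |(c.2 : ℝ)| ≤ H ^ 2 ∧ RiemannRoch n (poly2 c.1 c.2) ∧
        ¬ ∃ a b : ℤ, c.1 = a + b ∧ c.2 = a * b) ∧
      H ^ (2 + ε / (2 + 2 * ε)) ≤ (S.card : ℝ)) ∧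
    (∀ t H : ℝ, 1 ≤ t → 6 * t * (n.factorial : ℝ) ≤ H → ∃ S : Finset (ℤ × ℤ),
      (∀ c ∈ S, |(c.1 : ℝ)| ≤ H ∧ |(c.2 : ℝ)| ≤ H ^ 2 ∧ RiemannRoch n (poly2 c.1 c.2) ∧
        ¬ ∃ a b : ℤ, c.1 = a + b ∧ c.2 = a * b) ∧ t * H ^ 2 ≤ (S.card : ℝ)) := by
  obtain ⟨n₁, h₁⟩ := Filter.eventually_atTop.mp (Pool.Agent.T4h91.EH.count ε hε)
  obtain ⟨n₂, h₂⟩ := Filter.eventually_atTop.mp (Pool.Agent.T4h91.EH.pairs ε hε)
  obtain ⟨n₃, h₃⟩ := Filter.eventually_atTop.mp (Pool.Agent.T4h91.EH.many2 ε hε)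
  exact ⟨max n₁ (max n₂ n₃), fun n hn => ⟨fun X hX S hS =>
    h₁ n (le_trans (le_max_left _ _) hn) X hX S hS,
      h₂ n (le_trans (le_trans (le_max_left _ _) (le_max_right _ _)) hn),
      h₃ n (le_trans (le_trans (le_max_right _ _) (le_max_right _ _)) hn),
      Pool.Agent.T3h91.EC.many n⟩⟩

end Pool.Agent.Results.MP_b01859_ag.RiemannRochThreshold
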